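import Mathlib

/-!
# Upward closed properties of finite-index subgroups: all or not too few exceptions
-/

set_option autoImplicit false

namespace Pool.Agent.Q98.CG

open Function

variable {Γ : Type} [Group Γ]

/-- the number of subgroups `H ≥ I` of index at most `x` with the property `P` -/
noncomputable def cnt (I : Subgroup Γ) (P : Subgroup Γ → Prop) (x : ℕ) : ℕ∞ :=
  {H : Subgroup Γ | I ≤ H ∧ P H ∧ H.index ≠ 0 ∧ H.index ≤ x}.encard

/-- few generators over a subgroup of small index -/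
lemma exists_gen (r : ℕ) : ∀ (K M : Subgroup Γ), K ≤ M → K.relIndex M ≠ 0 →
    K.relIndex M < 2 ^ (r + 1) → ∃ t : Fin r → Γ, K ⊔ Subgroup.closure (Set.range t) = M := by
  induction r with
  | zero =>
    intro K M hKM h0 h1
    have h2 : K.relIndex M = 1 := by omega
    rw [Subgroup.relIndex_eq_one] at h2
    refine ⟨Fin.elim0, ?_⟩
    rw [Set.range_eq_empty, Subgroup.closure_empty, sup_bot_eq]
    exact le_antisymm hKM h2
  | succ r ih =>
    intro K M hKM h0 h1
    by_cases hM : M ≤ K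
    · refine ⟨fun _ => 1, ?_⟩
      have h2 : Subgroup.closure (Set.range fun _ : Fin (r + 1) => (1 : Γ)) = ⊥ := by
        rw [Subgroup.closure_eq_bot_iff]
        rintro _ ⟨_, rfl⟩
        rfl
      rw [h2, sup_bot_eq]
      exact le_antisymm hKM hM
    · obtain ⟨g, hg, hgK⟩ := SetLike.not_le_iff_exists.1 hM
      set K' := K ⊔ Subgroup.zpowers g with hK'
      have hKK' : K ≤ K' := le_sup_left
      have hgK' : g ∈ K' := (le_sup_right : Subgroup.zpowers g ≤ K') (Subgroup.mem_zpowers g)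
      have hK'M : K' ≤ M := sup_le hKM ((Subgroup.zpowers_le).2 hg)
      have h2 := Subgroup.relIndex_mul_relIndex K K' M hKK' hK'M
      have h3 : K.relIndex K' ≠ 0 := fun h => h0 (by rw [← h2, h, zero_mul])
      have h4 : K'.relIndex M ≠ 0 := fun h => h0 (by rw [← h2, h, mul_zero])
      have h5 : K.relIndex K' ≠ 1 := fun h => hgK ((Subgroup.relIndex_eq_one.1 h) hgK')
      have h6 : 2 ≤ K.relIndex K' := by omega
      have h7 : K'.relIndex M < 2 ^ (r + 1) := by
        have : 2 * K'.relIndex M ≤ K.relIndex M := by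
          rw [← h2]
          exact Nat.mul_le_mul_right _ h6
        have h8 : 2 ^ (r + 1 + 1) = 2 * 2 ^ (r + 1) := by ring
        omega
      obtain ⟨t, ht⟩ := ih K' M hK'M h4 h7
      refine ⟨Fin.cons g t, ?_⟩
      rw [Fin.range_cons, ← Set.singleton_union, Subgroup.closure_union, ← sup_assoc,
        ← Subgroup.zpowers_eq_closure]
      exact ht

/-- a subgroup is determined by few cosets -/
lemma code (K M : Subgroup Γ) (r : ℕ) (hKM : K ≤ M) (h0 : K.relIndex M ≠ 0)
    (h1 : K.relIndex M < 2 ^ (r + 1)) :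
    ∃ q : Fin r → Γ ⧸ K, K ⊔ Subgroup.closure (Set.range fun i => (q i).out) = M := by
  obtain ⟨t, ht⟩ := exists_gen r K M hKM h0 h1
  refine ⟨fun i => (t i : Γ ⧸ K), ?_⟩
  rw [← ht]
  have hout : ∀ i, ∃ k ∈ K, ((t i : Γ ⧸ K)).out = t i * k := by
    intro i
    obtain ⟨k, hk⟩ := QuotientGroup.mk_out_eq_mul K (t i)
    exact ⟨k, k.2, hk⟩
  apply le_antisymm
  · refine sup_le le_sup_left ((Subgroup.closure_le _).2 ?_)
    rintro _ ⟨i, rfl⟩
    obtain ⟨k, hk, hk2⟩ := hout i
    rw [SetLike.mem_coe]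
    show ((t i : Γ ⧸ K)).out ∈ _
    rw [hk2]
    exact Subgroup.mul_mem _
      ((le_sup_right : Subgroup.closure (Set.range t) ≤ _) (Subgroup.subset_closure ⟨i, rfl⟩))
      ((le_sup_left : K ≤ _) hk)
  · refine sup_le le_sup_left ((Subgroup.closure_le _).2 ?_)
    rintro _ ⟨i, rfl⟩
    obtain ⟨k, hk, hk2⟩ := hout i
    rw [SetLike.mem_coe]
    have h2 : t i = ((t i : Γ ⧸ K)).out * k⁻¹ := by rw [hk2]; group
    rw [h2]
    exact Subgroup.mul_mem _
      ((le_sup_right : Subgroup.closure (Set.range fun i => ((t i : Γ ⧸ K)).out) ≤ _)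
        (Subgroup.subset_closure ⟨i, rfl⟩))
      ((le_sup_left : K ≤ _) (K.inv_mem hk))

/-- **one exception forces many** -/
theorem many (I : Subgroup Γ) (P : Subgroup Γ → Prop) (hP : ∀ H H', P H → H ≤ H' → P H')
    {N : Subgroup Γ} (hI : I ≤ N) (hN : N.index ≠ 0) (hNP : ¬ P N) (x : ℕ) :
    cnt I P x ≤ cnt I (fun H => ¬ P H) (N.index * x) *
      (((N.index * x) ^ Nat.log 2 N.index : ℕ) : ℕ∞) := by
  classical
  set d := N.index with hd
  set r := Nat.log 2 d with hr
  have hr2 : d < 2 ^ (r + 1) := Nat.lt_pow_succ_log_self (by norm_num) d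
  -- the data of `M`
  have hrel : ∀ M : Subgroup Γ, (M ⊓ N).relIndex M ≠ 0 ∧ (M ⊓ N).relIndex M ≤ d := by
    intro M
    have h1 : (M ⊓ N).relIndex M = N.relIndex M := by
      rw [inf_comm, Subgroup.inf_relIndex_right]
    have hN' : N.relIndex ⊤ ≠ 0 := by
      rw [Subgroup.relIndex_top_right]
      exact hN
    have h2 : N.relIndex M ≤ N.index := by
      rw [← Subgroup.relIndex_top_right]
      exact Subgroup.relIndex_le_of_le_right le_top hN'
    have h3 : N.relIndex M ≠ 0 := fun h =>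
      hN' (Subgroup.relIndex_eq_zero_of_le_right le_top h)
    rw [h1]
    exact ⟨h3, h2⟩
  have hcode : ∀ M : Subgroup Γ, ∃ q : Fin r → Γ ⧸ (M ⊓ N),
      (M ⊓ N) ⊔ Subgroup.closure (Set.range fun i => (q i).out) = M := fun M =>
    code (M ⊓ N) M r inf_le_left (hrel M).1 ((hrel M).2.trans_lt hr2)
  choose q hq using hcode
  -- cosets are numbered
  have hnum : ∀ K : Subgroup Γ, ∃ e : Γ ⧸ K → ℕ, K.index ≠ 0 →
      Injective e ∧ ∀ c, e c < K.index := by
    intro K
    by_cases hK : K.index = 0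
    · exact ⟨fun _ => 0, fun h => absurd hK h⟩
    · haveI : K.FiniteIndex := ⟨hK⟩
      haveI : Finite (Γ ⧸ K) := Subgroup.finite_quotient_of_finiteIndex
      refine ⟨fun c => (Finite.equivFin (Γ ⧸ K) c).val, fun _ => ⟨?_, fun c => ?_⟩⟩
      · intro c c' h
        exact (Finite.equivFin (Γ ⧸ K)).injective (Fin.ext h)
      · exact (Finite.equivFin (Γ ⧸ K) c).isLt
  choose e he using hnum
  by_cases hD : d * x = 0
  · -- no subgroup of index at most zero
    have hx : x = 0 := by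
      rcases Nat.mul_eq_zero.1 hD with h | h
      · exact absurd h hN
      · exact h
    subst hx
    have : cnt I P 0 = 0 := by
      rw [cnt, Set.encard_eq_zero, Set.eq_empty_iff_forall_notMem]
      rintro H ⟨_, _, h1, h2⟩
      omega
    rw [this]
    exact zero_le
  haveI : NeZero (d * x) := ⟨hD⟩
  let F : Subgroup Γ → Subgroup Γ × (Fin r → Fin (d * x)) := fun M =>
    (M ⊓ N, fun i => Fin.ofNat (d * x) (e (M ⊓ N) (q M i)))
  have hidx : ∀ M : Subgroup Γ, M.index ≠ 0 → M.index ≤ x →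
      (M ⊓ N).index ≠ 0 ∧ (M ⊓ N).index ≤ d * x := by
    intro M h1 h2
    have h3 := Subgroup.relIndex_mul_index (inf_le_left : M ⊓ N ≤ M)
    refine ⟨fun h => ?_, ?_⟩
    · rw [h] at h3
      rcases Nat.mul_eq_zero.1 h3 with h4 | h4
      · exact (hrel M).1 h4
      · exact h1 h4
    · rw [← h3]
      exact Nat.mul_le_mul (hrel M).2 h2
  have hcard : (((d * x) ^ r : ℕ) : ℕ∞) = (Set.univ : Set (Fin r → Fin (d * x))).encard := by
    rw [Set.encard_univ, ENat.card_eq_coe_fintype_card, Fintype.card_fun, Fintype.card_fin,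
      Fintype.card_fin]
  rw [hcard, cnt, cnt, ← Set.encard_prod]
  refine Set.encard_le_encard_of_injOn (f := F) ?_ ?_
  · rintro M ⟨h1, h2, h3, h4⟩
    refine ⟨⟨le_inf h1 hI, fun h => hNP (hP _ _ h inf_le_right), hidx M h3 h4⟩, Set.mem_univ _⟩
  · rintro M ⟨_, _, h3, h4⟩ M' ⟨_, _, h3', h4'⟩ h
    have h5 : M ⊓ N = M' ⊓ N := congrArg Prod.fst h
    have h6 : ∀ i, Fin.ofNat (d * x) (e (M ⊓ N) (q M i))
        = Fin.ofNat (d * x) (e (M' ⊓ N) (q M' i)) := fun i => congrFun (congrArg Prod.snd h) i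
    have h7 := hidx M h3 h4
    have h8 := hidx M' h3' h4'
    have h9 : ∀ i, e (M ⊓ N) (q M i) = e (M' ⊓ N) (q M' i) := by
      intro i
      have h10 := congrArg Fin.val (h6 i)
      rw [Fin.val_ofNat, Fin.val_ofNat, Nat.mod_eq_of_lt, Nat.mod_eq_of_lt] at h10
      · exact h10
      · exact ((he _ h8.1).2 _).trans_le h8.2
      · exact ((he _ h7.1).2 _).trans_le h7.2
    have key : ∀ (K K' : Subgroup Γ) (p : Fin r → Γ ⧸ K) (p' : Fin r → Γ ⧸ K'), K = K' →
        K.index ≠ 0 → (∀ i, e K (p i) = e K' (p' i)) →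
        K ⊔ Subgroup.closure (Set.range fun i => (p i).out)
          = K' ⊔ Subgroup.closure (Set.range fun i => (p' i).out) := by
      intro K K' p p' hKK' hK hp
      subst hKK'
      have : p = p' := by
        funext i
        exact (he K hK).1 (hp i)
      rw [this]
    have h11 := key (M ⊓ N) (M' ⊓ N) (q M) (q M') h5 h7.1 h9
    rw [hq M, hq M'] at h11
    exact h11

/-- **all, or not too few exceptions** -/
theorem all_iff (I : Subgroup Γ) (P : Subgroup Γ → Prop) (hP : ∀ H H', P H → H ≤ H' → P H')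
    (htop : P ⊤) :
    (∀ H : Subgroup Γ, I ≤ H → H.index ≠ 0 → P H) ↔
      ∀ d : ℕ, 1 ≤ d → ∃ x : ℕ, cnt I (fun H => ¬ P H) (d * x) *
        (((d * x) ^ Nat.log 2 d : ℕ) : ℕ∞) < cnt I P x := by
  constructor
  · intro h d _
    refine ⟨1, ?_⟩
    have h1 : cnt I (fun H => ¬ P H) (d * 1) = 0 := by
      rw [cnt, Set.encard_eq_zero, Set.eq_empty_iff_forall_notMem]
      rintro H ⟨h1, h2, h3, _⟩
      exact h2 (h H h1 h3)
    rw [h1, zero_mul, cnt, Set.encard_pos]
    exact ⟨⊤, le_top, htop, by rw [Subgroup.index_top]; exact one_ne_zero,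
      by rw [Subgroup.index_top]⟩
  · intro h N hI hN
    by_contra hNP
    obtain ⟨x, hx⟩ := h N.index (Nat.pos_of_ne_zero hN)
    exact absurd (many I P hP hI hN hNP x) (not_le.2 hx)

end Pool.Agent.Q98.CG
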