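import Pool.Agent.Q98.CG.Grow

/-!
# One exception forces about as many as there are subgroups
-/

set_option autoImplicit false

namespace Pool.Agent.Q98.CG

open Function

/-- the number of all subgroups of index at most `x` of `Out(G)` -/
noncomputable def subs (G : Type) [Group G] (x : ℕ) : ℕ∞ := cnt (Inn G) (fun _ => True) x

section
variable {Γ : Type} [Group Γ]

/-- **one exception forces as many as there are subgroups** -/
theorem many_all (I : Subgroup Γ) (P : Subgroup Γ → Prop) (hP : ∀ H H', P H → H ≤ H' → P H')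
    {N : Subgroup Γ} (hI : I ≤ N) (hN : N.index ≠ 0) (hNP : ¬ P N) (x : ℕ) :
    cnt I (fun _ => True) x ≤ cnt I (fun H => ¬ P H) (N.index * x) *
      (((N.index * x) ^ Nat.log 2 N.index : ℕ) : ℕ∞) := by
  classical
  set d := N.index with hd
  set r := Nat.log 2 d with hr
  have hr2 : d < 2 ^ (r + 1) := Nat.lt_pow_succ_log_self (by norm_num) d
  -- the data of `M`
  have hrel : ∀ M : Subgroup Γ, (M ⊓ N).relIndex M ≠ 0 ∧ (M ⊓ N).relIndex M ≤ d := by
    intro M
    have h1 : (M ⊓ N).relIndex M = N.relIndex M := by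
      rw [inf_comm, Subgroup.inf_relIndex_right]
    have hN' : N.relIndex ⊤ ≠ 0 := by
      rw [Subgroup.relIndex_top_right]
      exact hN
    have h2 : N.relIndex M ≤ N.index := by
      rw [← Subgroup.relIndex_top_right]
      exact Subgroup.relIndex_le_of_le_right le_top hN'
    have h3 : N.relIndex M ≠ 0 := fun h =>
      hN' (Subgroup.relIndex_eq_zero_of_le_right le_top h)
    rw [h1]
    exact ⟨h3, h2⟩
  have hcode : ∀ M : Subgroup Γ, ∃ q : Fin r → Γ ⧸ (M ⊓ N),
      (M ⊓ N) ⊔ Subgroup.closure (Set.range fun i => (q i).out) = M := fun M =>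
    code (M ⊓ N) M r inf_le_left (hrel M).1 ((hrel M).2.trans_lt hr2)
  choose q hq using hcode
  -- cosets are numbered
  have hnum : ∀ K : Subgroup Γ, ∃ e : Γ ⧸ K → ℕ, K.index ≠ 0 →
      Injective e ∧ ∀ c, e c < K.index := by
    intro K
    by_cases hK : K.index = 0
    · exact ⟨fun _ => 0, fun h => absurd hK h⟩
    · haveI : K.FiniteIndex := ⟨hK⟩
      haveI : Finite (Γ ⧸ K) := Subgroup.finite_quotient_of_finiteIndex
      refine ⟨fun c => (Finite.equivFin (Γ ⧸ K) c).val, fun _ => ⟨?_, fun c => ?_⟩⟩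
      · intro c c' h
        exact (Finite.equivFin (Γ ⧸ K)).injective (Fin.ext h)
      · exact (Finite.equivFin (Γ ⧸ K) c).isLt
  choose e he using hnum
  by_cases hD : d * x = 0
  · -- no subgroup of index at most zero
    have hx : x = 0 := by
      rcases Nat.mul_eq_zero.1 hD with h | h
      · exact absurd h hN
      · exact h
    subst hx
    have : cnt I (fun _ => True) 0 = 0 := by
      rw [cnt, Set.encard_eq_zero, Set.eq_empty_iff_forall_notMem]
      rintro H ⟨_, _, h1, h2⟩
      omega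
    rw [this]
    exact zero_le
  haveI : NeZero (d * x) := ⟨hD⟩
  let F : Subgroup Γ → Subgroup Γ × (Fin r → Fin (d * x)) := fun M =>
    (M ⊓ N, fun i => Fin.ofNat (d * x) (e (M ⊓ N) (q M i)))
  have hidx : ∀ M : Subgroup Γ, M.index ≠ 0 → M.index ≤ x →
      (M ⊓ N).index ≠ 0 ∧ (M ⊓ N).index ≤ d * x := by
    intro M h1 h2
    have h3 := Subgroup.relIndex_mul_index (inf_le_left : M ⊓ N ≤ M)
    refine ⟨fun h => ?_, ?_⟩
    · rw [h] at h3
      rcases Nat.mul_eq_zero.1 h3 with h4 | h4
      · exact (hrel M).1 h4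
      · exact h1 h4
    · rw [← h3]
      exact Nat.mul_le_mul (hrel M).2 h2
  have hcard : (((d * x) ^ r : ℕ) : ℕ∞) = (Set.univ : Set (Fin r → Fin (d * x))).encard := by
    rw [Set.encard_univ, ENat.card_eq_coe_fintype_card, Fintype.card_fun, Fintype.card_fin,
      Fintype.card_fin]
  rw [hcard, cnt, cnt, ← Set.encard_prod]
  refine Set.encard_le_encard_of_injOn (f := F) ?_ ?_
  · rintro M ⟨h1, h2, h3, h4⟩
    refine ⟨⟨le_inf h1 hI, fun h => hNP (hP _ _ h inf_le_right), hidx M h3 h4⟩, Set.mem_univ _⟩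
  · rintro M ⟨_, _, h3, h4⟩ M' ⟨_, _, h3', h4'⟩ h
    have h5 : M ⊓ N = M' ⊓ N := congrArg Prod.fst h
    have h6 : ∀ i, Fin.ofNat (d * x) (e (M ⊓ N) (q M i))
        = Fin.ofNat (d * x) (e (M' ⊓ N) (q M' i)) := fun i => congrFun (congrArg Prod.snd h) i
    have h7 := hidx M h3 h4
    have h8 := hidx M' h3' h4'
    have h9 : ∀ i, e (M ⊓ N) (q M i) = e (M' ⊓ N) (q M' i) := by
      intro i
      have h10 := congrArg Fin.val (h6 i)
      rw [Fin.val_ofNat, Fin.val_ofNat, Nat.mod_eq_of_lt, Nat.mod_eq_of_lt] at h10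
      · exact h10
      · exact ((he _ h8.1).2 _).trans_le h8.2
      · exact ((he _ h7.1).2 _).trans_le h7.2
    have key : ∀ (K K' : Subgroup Γ) (p : Fin r → Γ ⧸ K) (p' : Fin r → Γ ⧸ K'), K = K' →
        K.index ≠ 0 → (∀ i, e K (p i) = e K' (p' i)) →
        K ⊔ Subgroup.closure (Set.range fun i => (p i).out)
          = K' ⊔ Subgroup.closure (Set.range fun i => (p' i).out) := by
      intro K K' p p' hKK' hK hp
      subst hKK'
      have : p = p' := by
        funext i
        exact (he K hK).1 (hp i)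
      rw [this]
    have h11 := key (M ⊓ N) (M' ⊓ N) (q M) (q M') h5 h7.1 h9
    rw [hq M, hq M'] at h11
    exact h11

end

theorem many_subs {G : Type} [Group G] {N : Subgroup (MulAut G)}
    (hI : ∀ x : G, MulAut.conj x ∈ N) (hN : N.index ≠ 0) (hNP : ¬ IsCong G N) (x : ℕ) :
    subs G x ≤ noncong G (N.index * x) * (((N.index * x) ^ Nat.log 2 N.index : ℕ) : ℕ∞) :=
  many_all (Inn G) (IsCong G) (fun _ _ h h' => h.mono h') (inn_le.2 hI) hN hNP x

end Pool.Agent.Q98.CG
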