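import Mathlib

/-!
# Many primes
-/

set_option autoImplicit false

namespace Pool.Agent.Q98.CG

lemma primes_grow (B : ℕ) : ∀ n : ℕ, (16 * B + 25) ^ 4 ≤ n →
    ∃ s : ℕ, 2 * s + 1 ≤ Nat.primeCounting n ∧ B * (n + 1) ≤ s * s := by
  intro n hn
  have hn2 : 25 ≤ n := by
    have h1 : 16 * B + 25 ≤ (16 * B + 25) ^ 4 := Nat.le_self_pow (by norm_num) _
    omega
  have hpi : 1 ≤ Nat.primeCounting n := by
    have h1 : Nat.primeCounting 2 ≤ Nat.primeCounting n := Nat.monotone_primeCounting (by omega)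
    have h2 : Nat.primeCounting 2 = 1 := by decide
    omega
  refine ⟨(Nat.primeCounting n - 1) / 2, by omega, ?_⟩
  set s := (Nat.primeCounting n - 1) / 2 with hs
  have hs2 : Nat.primeCounting n ≤ 2 * s + 2 := by omega
  by_contra hcon
  rw [not_le] at hcon
  set u : ℝ := ((n : ℝ) + 1) ^ (1 / 4 : ℝ) with hu
  have hn0 : (0 : ℝ) ≤ (n : ℝ) + 1 := by positivity
  have hu0 : 0 ≤ u := by positivity
  have hu4 : u ^ 4 = (n : ℝ) + 1 := by
    rw [hu, ← Real.rpow_natCast, ← Real.rpow_mul hn0]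
    norm_num
  have huB : (16 * B + 25 : ℝ) ≤ u := by
    have h1 : ((16 * B + 25 : ℝ)) ^ 4 ≤ u ^ 4 := by
      rw [hu4]
      have : (((16 * B + 25) ^ 4 : ℕ) : ℝ) ≤ (n : ℝ) := by exact_mod_cast hn
      push_cast at this
      linarith
    exact le_of_pow_le_pow_left₀ (by norm_num) hu0 h1
  have hB0 : (0 : ℝ) ≤ B := by positivity
  have hu1 : (25 : ℝ) ≤ u := by linarith
  have hlog1 : Real.log ((n : ℝ) + 1) ≤ 4 * u := by
    have := Real.log_le_rpow_div hn0 (ε := 1 / 4) (by norm_num)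
    rw [← hu] at this
    linarith
  have hnpos : (0 : ℝ) < n := by
    have : 0 < n := by omega
    exact_mod_cast this
  have hlog2 : Real.log (n : ℝ) ≤ 4 * u :=
    (Real.log_le_log hnpos (by linarith)).trans hlog1
  have hlog0 : 0 < Real.log (n : ℝ) := by
    apply Real.log_pos
    have : 1 < n := by omega
    exact_mod_cast this
  have hC := Chebyshev.pi_ge n
  rw [div_le_iff₀ hlog0] at hC
  have hs3 : (s : ℝ) ≤ B * u ^ 2 := by
    have h1 : (s : ℝ) ^ 2 ≤ (B * u ^ 2) ^ 2 := by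
      have h2 : (s : ℝ) * s ≤ B * (n + 1) := by exact_mod_cast hcon.le
      have h3 : (B : ℝ) ≤ B ^ 2 := by
        rcases Nat.eq_zero_or_pos B with h | h
        · rw [h]; simp
        · have : (1 : ℝ) ≤ B := by exact_mod_cast h
          nlinarith
      rw [← hu4] at h2
      have h4 : 0 ≤ u ^ 4 := by positivity
      nlinarith [mul_le_mul_of_nonneg_right h3 h4]
    exact le_of_sq_le_sq h1 (by positivity)
  have hpi2 : (Nat.primeCounting n : ℝ) ≤ 2 * (B * u ^ 2) + 2 := by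
    have : (Nat.primeCounting n : ℝ) ≤ 2 * s + 2 := by exact_mod_cast hs2
    linarith
  have hl2 : 0.69 ≤ Real.log 2 := by
    have := Real.log_two_gt_d9
    linarith
  have h5 : (Nat.primeCounting n : ℝ) * Real.log n ≤ (2 * (B * u ^ 2) + 2) * (4 * u) :=
    mul_le_mul hpi2 hlog2 hlog0.le (by positivity)
  have h6 : (n : ℝ) * 0.69 ≤ n * Real.log 2 := mul_le_mul_of_nonneg_left hl2 hnpos.le
  have h7 : (u ^ 4 - 1) * 0.69 ≤ 4 * u + (2 * (B * u ^ 2) + 2) * (4 * u) := by
    have : (n : ℝ) = u ^ 4 - 1 := by linarith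
    rw [this] at h6 hC
    rw [this] at h5
    have h8 : Real.log (u ^ 4 - 1 + 1) ≤ 4 * u := by
      rw [sub_add_cancel, hu4]
      exact hlog1
    linarith
  have h9 : (16 * B + 25 : ℝ) * u ^ 3 ≤ u ^ 4 := by
    have : u ^ 4 = u * u ^ 3 := by ring
    rw [this]
    exact mul_le_mul_of_nonneg_right huB (by positivity)
  have h10 : u ≤ u ^ 3 := by nlinarith [sq_nonneg u]
  have h11 : 0 ≤ B * u ^ 3 := by positivity
  nlinarith

end Pool.Agent.Q98.CG
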