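import Pool.Agent.Q98.CG.Most

/-!
# Congruence subgroups of `Out(G)`
-/

set_option autoImplicit false

namespace Pool.Agent.Q98.CG

/-- `H ≤ Aut(G)` contains all automorphisms which act on `G/K` as an inner automorphism, for some
characteristic subgroup `K` of finite index -/
def IsCong (G : Type) [Group G] (H : Subgroup (MulAut G)) : Prop :=
  ∃ K : Subgroup G, K.Characteristic ∧ K.FiniteIndex ∧
    ∀ ψ : MulAut G, (∃ g : G, ∀ x : G, ψ x * (g * x * g⁻¹)⁻¹ ∈ K) → ψ ∈ H

/-- the inner automorphisms -/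
def Inn (G : Type) [Group G] : Subgroup (MulAut G) := (MulAut.conj : G →* MulAut G).range

/-- the number of congruence subgroups of index at most `x` of `Out(G)` -/
noncomputable def cong (G : Type) [Group G] (x : ℕ) : ℕ∞ := cnt (Inn G) (IsCong G) x

/-- the number of noncongruence subgroups of index at most `x` of `Out(G)` -/
noncomputable def noncong (G : Type) [Group G] (x : ℕ) : ℕ∞ :=
  cnt (Inn G) (fun H => ¬ IsCong G H) x

variable {G : Type} [Group G]

lemma IsCong.mono {H H' : Subgroup (MulAut G)} (h : IsCong G H) (hH : H ≤ H') : IsCong G H' := by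
  obtain ⟨K, h1, h2, h3⟩ := h
  exact ⟨K, h1, h2, fun ψ hψ => hH (h3 ψ hψ)⟩

lemma isCong_top : IsCong G ⊤ :=
  ⟨⊤, inferInstance, inferInstance, fun _ _ => Subgroup.mem_top _⟩

lemma inn_le {H : Subgroup (MulAut G)} : Inn G ≤ H ↔ ∀ x : G, MulAut.conj x ∈ H := by
  constructor
  · intro h x
    exact h ⟨x, rfl⟩
  · rintro h _ ⟨x, rfl⟩
    exact h x

theorem many_aut {N : Subgroup (MulAut G)} (hI : ∀ x : G, MulAut.conj x ∈ N)
    (hN : N.index ≠ 0) (hNP : ¬ IsCong G N) (x : ℕ) :
    cong G x ≤ noncong G (N.index * x) * (((N.index * x) ^ Nat.log 2 N.index : ℕ) : ℕ∞) :=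
  many (Inn G) (IsCong G) (fun _ _ h h' => h.mono h') (inn_le.2 hI) hN hNP x

theorem iff_aut : (∀ H : Subgroup (MulAut G), H.FiniteIndex → (∀ x : G, MulAut.conj x ∈ H) →
      IsCong G H) ↔
    ∀ d : ℕ, 1 ≤ d → ∃ x : ℕ,
      noncong G (d * x) * (((d * x) ^ Nat.log 2 d : ℕ) : ℕ∞) < cong G x := by
  refine Iff.trans ?_ (all_iff (Inn G) (IsCong G) (fun _ _ h h' => h.mono h') isCong_top)
  constructor
  · intro h H h1 h2
    exact h H ⟨h2⟩ (inn_le.1 h1)
  · intro h H h1 h2
    exact h H (inn_le.2 h2) h1.index_ne_zero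

/-- normal subgroups are enough -/
theorem normal_iff : (∀ N : Subgroup (MulAut G), N.Normal → N.FiniteIndex →
      (∀ x : G, MulAut.conj x ∈ N) → IsCong G N) ↔
    (∀ H : Subgroup (MulAut G), H.FiniteIndex → (∀ x : G, MulAut.conj x ∈ H) →
      IsCong G H) := by
  constructor
  · intro h H h1 h2
    have h3 : ∀ x : G, MulAut.conj x ∈ H.normalCore := by
      intro x φ
      have : φ * MulAut.conj x * φ⁻¹ = MulAut.conj (φ x) := by
        ext y
        simp [MulAut.conj_apply]
      rw [this]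
      exact h2 _
    exact (h H.normalCore inferInstance inferInstance h3).mono H.normalCore_le
  · intro h N _ h1 h2
    exact h N h1 h2

end Pool.Agent.Q98.CG
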