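import Pool.Agent.Q98.CG.Ring

/-!
# Coordinates on free groups
-/

set_option autoImplicit false

namespace Pool.Agent.Q98.CG

open Matrix

/-- basis vectors -/
def bv (i : ℕ) : Fin 2 → ℤ := if i = 0 then ![1, 0] else if i = 1 then ![0, 1] else 0

/-- the action of a matrix -/
def mv (M : Matrix (Fin 2) (Fin 2) ℤ) : Multiplicative (Fin 2 → ℤ) →* Multiplicative (Fin 2 → ℤ) :=
  AddMonoidHom.toMultiplicative (Matrix.mulVecLin M).toAddMonoidHom

lemma mv_apply (M : Matrix (Fin 2) (Fin 2) ℤ) (a : Fin 2 → ℤ) :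
    mv M (Multiplicative.ofAdd a) = Multiplicative.ofAdd (M *ᵥ a) := rfl

/-- coordinates from a homomorphism -/
def mkCoord {G : Type} [Group G] {c : ℕ} (X : G →* Multiplicative (Fin 2 → ℤ)) (gen : Fin c → G)
    (gen_top : Subgroup.closure (Set.range gen) = ⊤) (e : G)
    (he : X e = Multiplicative.ofAdd ![1, 0])
    (rU : ∃ ψ : MulAut G, X.comp ψ.toMonoidHom = (mv !![1, 1; 0, 1]).comp X)
    (rL : ∃ ψ : MulAut G, X.comp ψ.toMonoidHom = (mv !![1, 0; 1, 1]).comp X) :
    Coord G Empty c where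
  x g := Multiplicative.toAdd (X g)
  y _ := 0
  x_mul g h := by rw [map_mul]; rfl
  y_mul _ _ := (add_zero _).symm
  gen := gen
  gen_top := gen_top
  e := e
  x_e := by rw [he]; rfl
  rU := by
    obtain ⟨ψ, hψ⟩ := rU
    exact ⟨ψ, fun g => ⟨congrArg Multiplicative.toAdd (DFunLike.congr_fun hψ g), rfl⟩⟩
  rL := by
    obtain ⟨ψ, hψ⟩ := rL
    exact ⟨ψ, fun g => ⟨congrArg Multiplicative.toAdd (DFunLike.congr_fun hψ g), rfl⟩⟩

section free
variable (n : ℕ)

/-- the coordinates of the first two generators -/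
def XF : FreeGroup (Fin (n + 2)) →* Multiplicative (Fin 2 → ℤ) :=
  FreeGroup.lift fun i => Multiplicative.ofAdd (bv i.val)

/-- `x_a ↦ x_a x_b ^ k` -/
def tr (a b : Fin (n + 2)) (k : ℤ) : FreeGroup (Fin (n + 2)) →* FreeGroup (Fin (n + 2)) :=
  FreeGroup.lift fun i => if i = a then FreeGroup.of a * FreeGroup.of b ^ k else FreeGroup.of i

lemma tr_comp (a b : Fin (n + 2)) (hab : a ≠ b) (k l : ℤ) (hkl : k + l = 0) :
    (tr n a b k).comp (tr n a b l) = MonoidHom.id _ := by
  ext i
  by_cases hi : i = a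
  · subst hi
    simp only [tr, MonoidHom.comp_apply, FreeGroup.lift_apply_of, if_pos, map_mul, map_zpow,
      if_neg hab.symm, MonoidHom.id_apply]
    rw [mul_assoc, ← _root_.zpow_add, hkl, zpow_zero, mul_one]
  · simp only [tr, MonoidHom.comp_apply, FreeGroup.lift_apply_of, if_neg hi, MonoidHom.id_apply]

/-- the transvection -/
def trA (a b : Fin (n + 2)) (hab : a ≠ b) : MulAut (FreeGroup (Fin (n + 2))) :=
  MonoidHom.toMulEquiv (tr n a b 1) (tr n a b (-1)) (tr_comp n a b hab _ _ (by norm_num))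
    (tr_comp n a b hab _ _ (by norm_num))

/-- coordinates on the free group -/
def coordFree : Coord (FreeGroup (Fin (n + 2))) Empty (n + 2) :=
  mkCoord (XF n) FreeGroup.of (FreeGroup.closure_range_of _) (FreeGroup.of 0)
    (by simp [XF, bv])
    ⟨trA n 1 0 (by simp), by
      ext i : 1
      show XF n (tr n 1 0 1 (FreeGroup.of i)) = mv _ (XF n (FreeGroup.of i))
      rw [tr, FreeGroup.lift_apply_of, XF, FreeGroup.lift_apply_of, mv_apply]
      by_cases hi : i = 1
      · rw [if_pos hi, map_mul, map_zpow, FreeGroup.lift_apply_of, FreeGroup.lift_apply_of, zpow_one,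
          ← ofAdd_add, hi]
        congr 1
        ext j; fin_cases j <;> simp [bv, Matrix.mulVec, dotProduct, Fin.sum_univ_two]
      · rw [if_neg hi, FreeGroup.lift_apply_of]
        congr 1
        have h1 : i.val ≠ 1 := fun h => hi (Fin.ext h)
        by_cases h0 : i.val = 0
        · rw [h0]
          ext j; fin_cases j <;> simp [bv, Matrix.mulVec, dotProduct, Fin.sum_univ_two]
        · simp [bv, h0, h1]⟩
    ⟨trA n 0 1 (by simp), by
      ext i : 1
      show XF n (tr n 0 1 1 (FreeGroup.of i)) = mv _ (XF n (FreeGroup.of i))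
      rw [tr, FreeGroup.lift_apply_of, XF, FreeGroup.lift_apply_of, mv_apply]
      by_cases hi : i = 0
      · rw [if_pos hi, map_mul, map_zpow, FreeGroup.lift_apply_of, FreeGroup.lift_apply_of, zpow_one,
          ← ofAdd_add, hi]
        congr 1
        ext j; fin_cases j <;> simp [bv, Matrix.mulVec, dotProduct, Fin.sum_univ_two]
      · rw [if_neg hi, FreeGroup.lift_apply_of]
        congr 1
        have h0 : i.val ≠ 0 := fun h => hi (Fin.ext h)
        by_cases h1 : i.val = 1
        · rw [h1]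
          ext j; fin_cases j <;> simp [bv, Matrix.mulVec, dotProduct, Fin.sum_univ_two]
        · simp [bv, h0, h1]⟩

end free

end Pool.Agent.Q98.CG
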