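import Pool.Agent.Q98.CG.Primes
import Pool.Agent.Q98.CG.Asym

/-!
# Superpolynomial growth of congruence and of noncongruence subgroups
-/

set_option autoImplicit false

namespace Pool.Agent.Q98.CG

lemma cnt_mono {Γ : Type} [Group Γ] (I : Subgroup Γ) (P : Subgroup Γ → Prop) {x y : ℕ}
    (h : x ≤ y) : cnt I P x ≤ cnt I P y := by
  refine Set.encard_le_encard ?_
  rintro H ⟨a1, a2, a3, a4⟩
  exact ⟨a1, a2, a3, a4.trans h⟩

variable {G : Type} [Group G] {J : Type} {c : ℕ}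

/-- the congruence subgroups have superpolynomial growth -/
theorem cong_superpoly [Finite J] (C : Coord G J c) (A : ℕ) :
    ∃ x₀ : ℕ, ∀ x : ℕ, x₀ ≤ x → ((x ^ A : ℕ) : ℕ∞) ≤ cong G x := by
  set q := (2 + Nat.card J) * c with hq
  set B := 2 * (q + 1) * A with hB
  set n₀ := (16 * B + 25) ^ 4 with hn₀
  refine ⟨(4 ^ (q + 1)) ^ n₀, fun x hx => ?_⟩
  have hb : 1 < 4 ^ (q + 1) := Nat.one_lt_pow (by omega) (by norm_num)
  have hx0 : x ≠ 0 := by
    have : 0 < (4 ^ (q + 1)) ^ n₀ := by positivity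
    omega
  set n := Nat.log (4 ^ (q + 1)) x with hn
  have hn1 : n₀ ≤ n := Nat.le_log_of_pow_le hb hx
  have hn2 : (4 ^ (q + 1)) ^ n ≤ x := Nat.pow_log_le_self _ hx0
  have hn3 : x < (4 ^ (q + 1)) ^ (n + 1) := Nat.lt_pow_succ_log_self hb x
  obtain ⟨s, hs1, hs2⟩ := primes_grow B n hn1
  have h1 := count_primes C s n hs1
  have h2 : x ^ A ≤ 2 ^ (s * s) := by
    calc x ^ A ≤ ((4 ^ (q + 1)) ^ (n + 1)) ^ A := Nat.pow_le_pow_left hn3.le _
      _ = 2 ^ (B * (n + 1)) := by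
        rw [show (4 : ℕ) = 2 ^ 2 by norm_num, ← pow_mul, ← pow_mul, ← pow_mul]
        congr 1
        rw [hB]
        ring
      _ ≤ 2 ^ (s * s) := Nat.pow_le_pow_right (by norm_num) hs2
  have h3 : 4 ^ (q * n) ≤ x := by
    refine le_trans ?_ hn2
    rw [← pow_mul]
    exact Nat.pow_le_pow_right (by norm_num) (Nat.mul_le_mul_right _ (by omega))
  calc ((x ^ A : ℕ) : ℕ∞) ≤ ((2 ^ (s * s) : ℕ) : ℕ∞) := by exact_mod_cast h2
    _ ≤ cong G (4 ^ (q * n)) := h1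
    _ ≤ cong G x := cnt_mono _ _ h3

/-- one noncongruence subgroup forces superpolynomially many -/
theorem noncong_superpoly [Finite J] (C : Coord G J c) {N : Subgroup (MulAut G)}
    (hI : ∀ g : G, MulAut.conj g ∈ N) (hN : N.index ≠ 0) (hNP : ¬ IsCong G N) (A : ℕ) :
    ∃ x₀ : ℕ, ∀ x : ℕ, x₀ ≤ x → ((x ^ A : ℕ) : ℕ∞) ≤ noncong G x := by
  set d := N.index with hd
  set r := Nat.log 2 d with hr
  obtain ⟨x₁, h1⟩ := cong_superpoly C (2 * A + 2 * r)
  refine ⟨d * (x₁ + d + 2), fun y hy => ?_⟩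
  set x := y / d with hx
  have hdpos : 0 < d := Nat.pos_of_ne_zero hN
  have hx1 : x₁ + d + 2 ≤ x := by
    rw [hx, Nat.le_div_iff_mul_le hdpos, mul_comm]
    exact hy
  have hx2 : d * x ≤ y := Nat.mul_div_le y d
  have hx3 : y < d * (x + 1) := Nat.lt_mul_div_succ y hdpos
  have hx4 : y ≤ x ^ 2 := by
    have : d * (x + 1) ≤ x ^ 2 := by
      have h2 : d ≤ x - 2 := by omega
      have h3 : d * (x + 1) ≤ (x - 2) * (x + 1) := Nat.mul_le_mul_right _ h2
      refine h3.trans ?_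
      obtain ⟨z, hz⟩ : ∃ z, x = z + 2 := ⟨x - 2, by omega⟩
      rw [hz]
      have : z + 2 - 2 = z := by omega
      rw [this]
      nlinarith
    omega
  have h2 := h1 x (by omega)
  have h3 := many_aut hI hN hNP x
  rw [← hd, ← hr] at h3
  have h4 : noncong G (d * x) ≤ noncong G y := cnt_mono _ _ hx2
  have h5 : (d * x) ^ r ≤ x ^ (2 * r) := by
    rw [pow_mul]
    exact Nat.pow_le_pow_left (hx2.trans hx4) _
  have h6 : y ^ A ≤ x ^ (2 * A) := by
    rw [pow_mul]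
    exact Nat.pow_le_pow_left hx4 _
  have h7 : ((x ^ (2 * A + 2 * r) : ℕ) : ℕ∞) ≤ noncong G y * ((x ^ (2 * r) : ℕ) : ℕ∞) := by
    refine (h2.trans h3).trans ?_
    exact mul_le_mul' h4 (by exact_mod_cast h5)
  by_contra hcon
  rw [not_le] at hcon
  obtain ⟨k, hk⟩ := ENat.ne_top_iff_exists.1 (ne_top_of_lt hcon)
  rw [← hk] at hcon h7
  have h8 : k < y ^ A := by exact_mod_cast hcon
  have h9 : x ^ (2 * A + 2 * r) ≤ k * x ^ (2 * r) := by exact_mod_cast h7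
  rw [pow_add] at h9
  have hxp : 0 < x ^ (2 * r) := by
    have : 0 < x := by omega
    positivity
  have h10 := Nat.le_of_mul_le_mul_right h9 hxp
  omega

/-- **congruence subgroup property and growth** -/
theorem growth_iff [Finite J] (C : Coord G J c) :
    (∀ H : Subgroup (MulAut G), H.FiniteIndex → (∀ g : G, MulAut.conj g ∈ H) → IsCong G H) ↔
      ∃ A : ℕ, ∀ x₀ : ℕ, ∃ x : ℕ, x₀ ≤ x ∧ noncong G x < ((x ^ A : ℕ) : ℕ∞) := by
  constructor
  · intro h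
    refine ⟨0, fun x₀ => ⟨x₀, le_rfl, ?_⟩⟩
    have h1 : noncong G x₀ = 0 := by
      rw [noncong, cnt, Set.encard_eq_zero, Set.eq_empty_iff_forall_notMem]
      rintro H ⟨h1, h2, h3, _⟩
      exact h2 (h H ⟨h3⟩ (inn_le.1 h1))
    rw [h1]
    simp
  · rintro ⟨A, hA⟩ H h1 h2
    by_contra h3
    obtain ⟨x₀, hx₀⟩ := noncong_superpoly C h2 h1.index_ne_zero h3 A
    obtain ⟨x, hx, hx2⟩ := hA x₀
    exact absurd (hx₀ x hx) (not_le.2 hx2)

end Pool.Agent.Q98.CG
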