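import Pool.Agent.Q98.CG.Ring

/-!
# Many congruence subgroups: products of primes
-/

set_option autoImplicit false

namespace Pool.Agent.Q98.CG

open Function Finset

/-- subgroups of `{±1}^s × {±1}^s` from matrices with entries in `{0, 1}` -/
def gr (s : ℕ) (M : Fin s → Fin s → Bool) : Subgroup ((Fin s → ℤˣ) × (Fin s → ℤˣ)) where
  carrier := {p | ∀ i, p.2 i = ∏ j, if M i j then p.1 j else 1}
  one_mem' := by intro i; simp
  mul_mem' := by
    intro a b ha hb i
    show a.2 i * b.2 i = _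
    rw [ha i, hb i, ← Finset.prod_mul_distrib]
    refine Finset.prod_congr rfl fun j _ => ?_
    by_cases h : M i j <;> simp [h]
  inv_mem' := by
    intro a ha i
    show (a.2 i)⁻¹ = _
    rw [ha i, ← Finset.prod_inv_distrib]
    refine Finset.prod_congr rfl fun j _ => ?_
    by_cases h : M i j <;> simp [h]

lemma gr_injective (s : ℕ) : Injective (gr s) := by
  intro M M' h
  funext i j
  have hp : ∀ N : Fin s → Fin s → Bool, ∀ i, (if N i j then (-1 : ℤˣ) else 1)
      = ∏ k, if N i k then (Pi.mulSingle j (-1) : Fin s → ℤˣ) k else 1 := by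
    intro N i
    rw [Finset.prod_eq_single j]
    · rw [Pi.mulSingle_eq_same]
    · intro k _ hk
      rw [Pi.mulSingle_eq_of_ne hk]
      simp
    · intro h; exact absurd (Finset.mem_univ _) h
  have h1 : ((Pi.mulSingle j (-1) : Fin s → ℤˣ), fun i => if M i j then (-1 : ℤˣ) else 1)
      ∈ gr s M := fun i => hp M i
  rw [h] at h1
  have h2 := h1 i
  rw [← hp M' i] at h2
  have h3 : (-1 : ℤˣ) ≠ 1 := by decide
  change (if M i j = true then (-1 : ℤˣ) else 1) = _ at h2
  cases hM : M i j <;> cases hM' : M' i j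
  · rfl
  · rw [hM, hM', if_neg (by decide), if_pos rfl] at h2
    exact absurd h2.symm h3
  · rw [hM, hM', if_pos rfl, if_neg (by decide)] at h2
    exact absurd h2 h3
  · rfl

lemma card_gr (s : ℕ) : ((2 ^ (s * s) : ℕ) : ℕ∞) ≤
    (Set.univ : Set (Subgroup ((Fin s → ℤˣ) × (Fin s → ℤˣ)))).encard := by
  have h : (((2 ^ (s * s) : ℕ)) : ℕ∞) = (Set.univ : Set (Fin s → Fin s → Bool)).encard := by
    rw [Set.encard_univ, ENat.card_eq_coe_fintype_card, Fintype.card_fun, Fintype.card_fun,
      Fintype.card_fin, Fintype.card_bool, ← pow_mul]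
  rw [h]
  exact Set.encard_le_encard_of_injOn (f := gr s) (fun _ _ => Set.mem_univ _)
    (gr_injective s).injOn

section
variable {s : ℕ} (p : Fin s ⊕ Fin s → ℕ)

/-- signs as units modulo the primes -/
def sg : ((Fin s → ℤˣ) × (Fin s → ℤˣ)) →* (∀ i, ZMod (p i))ˣ where
  toFun v := ⟨fun i => (((Sum.elim v.1 v.2 i : ℤˣ) : ℤ) : ZMod (p i)),
    fun i => (((Sum.elim v.1 v.2 i : ℤˣ) : ℤ) : ZMod (p i)),
    by
      funext i
      show (((Sum.elim v.1 v.2 i : ℤˣ) : ℤ) : ZMod (p i)) * _ = 1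
      rw [← Int.cast_mul, ← Units.val_mul, Int.units_mul_self, Units.val_one, Int.cast_one],
    by
      funext i
      show (((Sum.elim v.1 v.2 i : ℤˣ) : ℤ) : ZMod (p i)) * _ = 1
      rw [← Int.cast_mul, ← Units.val_mul, Int.units_mul_self, Units.val_one, Int.cast_one]⟩
  map_one' := by
    ext i
    rcases i with i | i <;> simp
  map_mul' v w := by
    ext i
    rcases i with i | i <;> simp

lemma sg_injective (hp : ∀ i, 2 < p i) : Injective (sg p) := by
  have key : ∀ i, ∀ a b : ℤˣ, (((a : ℤˣ) : ℤ) : ZMod (p i)) = ((b : ℤˣ) : ℤ) → a = b := by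
    intro i a b h
    have : Fact (2 < p i) := ⟨hp i⟩
    rcases Int.units_eq_one_or a with rfl | rfl <;> rcases Int.units_eq_one_or b with rfl | rfl
    · rfl
    · simp at h
      exact absurd h.symm (ZMod.neg_one_ne_one)
    · simp at h
      exact absurd h (ZMod.neg_one_ne_one)
    · rfl
  intro v w h
  have h1 : ∀ i, (((Sum.elim v.1 v.2 i : ℤˣ) : ℤ) : ZMod (p i))
      = ((Sum.elim w.1 w.2 i : ℤˣ) : ℤ) := fun i => congrFun (congrArg Units.val h) i
  refine Prod.ext (funext fun i => ?_) (funext fun i => ?_)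
  · exact key (Sum.inl i) _ _ (h1 (Sum.inl i))
  · exact key (Sum.inr i) _ _ (h1 (Sum.inr i))

lemma cast_surj (hp : Pairwise (Nat.Coprime on p)) :
    Surjective (Int.cast : ℤ → ∀ i, ZMod (p i)) := by
  intro a
  obtain ⟨k, hk⟩ := ZMod.intCast_surjective ((ZMod.prodEquivPi p hp).symm a)
  refine ⟨k, ?_⟩
  have h1 := congrArg (ZMod.prodEquivPi p hp) hk
  rw [RingEquiv.apply_symm_apply, map_intCast] at h1
  exact h1

end

theorem count_primes {G : Type} [Group G] {J : Type} {c : ℕ} [Finite J] (C : Coord G J c)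
    (s n : ℕ) (hs : 2 * s + 1 ≤ Nat.primeCounting n) :
    ((2 ^ (s * s) : ℕ) : ℕ∞) ≤ cong G (4 ^ ((2 + Nat.card J) * c * n)) := by
  classical
  -- odd primes up to `n`
  set T : Finset ℕ := (Nat.primesLE n).erase 2 with hT
  have hcard : 2 * s ≤ T.card := by
    have h1 : (Nat.primesLE n).card = Nat.primeCounting n := by
      simp
    have h2 := Finset.pred_card_le_card_erase (s := Nat.primesLE n) (a := 2)
    rw [h1, ← hT] at h2
    omega
  have hemb : Nonempty ((Fin s ⊕ Fin s) ↪ T) := by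
    refine Function.Embedding.nonempty_of_card_le ?_
    rw [Fintype.card_sum, Fintype.card_fin, Fintype.card_coe]
    omega
  obtain ⟨e⟩ := hemb
  let p : Fin s ⊕ Fin s → ℕ := fun i => (e i).val
  have hpm : ∀ i, p i ∈ Nat.primesLE n ∧ p i ≠ 2 := by
    intro i
    have h3 : ∀ q ∈ T, q ∈ Nat.primesLE n ∧ q ≠ 2 := by
      intro q hq
      rw [hT, Finset.mem_erase] at hq
      exact ⟨hq.2, hq.1⟩
    exact h3 _ (e i).2
  have hpp : ∀ i, (p i).Prime := fun i => by
    have := (hpm i).1
    rw [Nat.mem_primesLE] at this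
    exact this.2
  have hp2 : ∀ i, 2 < p i := fun i => lt_of_le_of_ne (hpp i).two_le (hpm i).2.symm
  have hinj : Injective p := fun i j h => e.injective (Subtype.ext h)
  have hco : Pairwise (Nat.Coprime on p) := fun i j h =>
    (Nat.coprime_primes (hpp i) (hpp j)).2 fun h' => h (hinj h')
  have : ∀ i, NeZero (p i) := fun i => ⟨(hpp i).ne_zero⟩
  have h1 := C.count (S := ∀ i, ZMod (p i)) (cast_surj p hco) (sg p) (sg_injective p hp2)
  have h2 : Nat.card (∀ i, ZMod (p i)) ≤ 4 ^ n := by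
    rw [Nat.card_pi]
    simp only [Nat.card_zmod]
    have h3 : ∏ i, p i = ∏ q ∈ Finset.univ.map ⟨p, hinj⟩, q := by
      rw [Finset.prod_map]
      rfl
    rw [h3]
    refine le_trans ?_ (primorial_le_four_pow n)
    rw [primorial_eq_prod_primesLE]
    refine Finset.prod_le_prod_of_subset_of_one_le' ?_ ?_
    · intro q hq
      rw [Finset.mem_map] at hq
      obtain ⟨i, _, rfl⟩ := hq
      exact (hpm i).1
    · intro q hq _
      rw [Nat.mem_primesLE] at hq
      exact hq.2.one_lt.le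
  refine (card_gr s).trans (h1.trans ?_)
  refine Set.encard_le_encard ?_
  rintro H ⟨a1, a2, a3, a4⟩
  refine ⟨a1, a2, a3, a4.trans ?_⟩
  calc (Nat.card (∀ i, ZMod (p i)) ^ (2 + Nat.card J)) ^ c
      ≤ ((4 ^ n) ^ (2 + Nat.card J)) ^ c :=
        Nat.pow_le_pow_left (Nat.pow_le_pow_left h2 _) _
    _ = 4 ^ ((2 + Nat.card J) * c * n) := by
        rw [← pow_mul, ← pow_mul]
        congr 1
        ring

end Pool.Agent.Q98.CG
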