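import Pool.Agent.Q98.CG.Sub

/-!
# Many congruence subgroups: diagonal matrices over a finite quotient ring of `ℤ`
-/

set_option autoImplicit false

namespace Pool.Agent.Q98.CG

open Matrix

/-- coordinates on `G` in which two transvections are induced by automorphisms -/
structure Coord (G : Type) [Group G] (J : Type) (c : ℕ) where
  x : G → Fin 2 → ℤ
  y : G → J → ℤ
  x_mul : ∀ g h, x (g * h) = x g + x h
  y_mul : ∀ g h, y (g * h) = y g + y h
  gen : Fin c → G
  gen_top : Subgroup.closure (Set.range gen) = ⊤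
  e : G
  x_e : x e = ![1, 0]
  rU : ∃ ψ : MulAut G, ∀ g, x (ψ g) = !![1, 1; 0, 1] *ᵥ x g ∧ y (ψ g) = y g
  rL : ∃ ψ : MulAut G, ∀ g, x (ψ g) = !![1, 0; 1, 1] *ᵥ x g ∧ y (ψ g) = y g

variable {G : Type} [Group G] {J : Type} {c : ℕ} (C : Coord G J c)

namespace Coord

/-- the matrix is induced by an automorphism -/
def R (M : Matrix (Fin 2) (Fin 2) ℤ) : Prop :=
  ∃ ψ : MulAut G, ∀ g, C.x (ψ g) = M *ᵥ C.x g ∧ C.y (ψ g) = C.y g

lemma R_one : C.R 1 := ⟨1, fun g => ⟨by rw [one_mulVec]; rfl, rfl⟩⟩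

lemma R_mul {M M' : Matrix (Fin 2) (Fin 2) ℤ} (h : C.R M) (h' : C.R M') : C.R (M * M') := by
  obtain ⟨ψ, hψ⟩ := h
  obtain ⟨ψ', hψ'⟩ := h'
  refine ⟨ψ * ψ', fun g => ⟨?_, ?_⟩⟩
  · rw [MulAut.mul_apply, (hψ _).1, (hψ' _).1, mulVec_mulVec]
  · rw [MulAut.mul_apply, (hψ _).2, (hψ' _).2]

lemma R_inv {M M' : Matrix (Fin 2) (Fin 2) ℤ} (h : C.R M) (h' : M' * M = 1) : C.R M' := by
  obtain ⟨ψ, hψ⟩ := h
  refine ⟨ψ⁻¹, fun g => ⟨?_, ?_⟩⟩
  · have := (hψ (ψ⁻¹ g)).1
    rw [MulAut.apply_inv_self] at this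
    rw [this, mulVec_mulVec, h', one_mulVec]
  · have := (hψ (ψ⁻¹ g)).2
    rw [MulAut.apply_inv_self] at this
    exact this.symm

lemma R_U (k : ℤ) : C.R !![1, k; 0, 1] := by
  have h1 : C.R !![1, 1; 0, 1] := C.rU
  have h2 : C.R !![1, -1; 0, 1] := C.R_inv h1 (by
    ext i j; fin_cases i <;> fin_cases j <;> simp [Matrix.mul_apply, Fin.sum_univ_two])
  induction k using Int.induction_on with
  | zero =>
    have : (!![1, 0; 0, 1] : Matrix (Fin 2) (Fin 2) ℤ) = 1 := by
      ext i j; fin_cases i <;> fin_cases j <;> simp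
    rw [this]
    exact C.R_one
  | succ k ih =>
    have : (!![1, (k : ℤ) + 1; 0, 1] : Matrix (Fin 2) (Fin 2) ℤ)
        = !![1, (k : ℤ); 0, 1] * !![1, 1; 0, 1] := by
      ext i j; fin_cases i <;> fin_cases j <;>
        simp [Matrix.mul_apply, Fin.sum_univ_two, add_comm]
    rw [this]
    exact C.R_mul ih h1
  | pred k ih =>
    have : (!![1, -(k : ℤ) - 1; 0, 1] : Matrix (Fin 2) (Fin 2) ℤ)
        = !![1, -(k : ℤ); 0, 1] * !![1, -1; 0, 1] := by
      ext i j; fin_cases i <;> fin_cases j <;>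
        simp [Matrix.mul_apply, Fin.sum_univ_two] <;> ring
    rw [this]
    exact C.R_mul ih h2

lemma R_L (k : ℤ) : C.R !![1, 0; k, 1] := by
  have h1 : C.R !![1, 0; 1, 1] := C.rL
  have h2 : C.R !![1, 0; -1, 1] := C.R_inv h1 (by
    ext i j; fin_cases i <;> fin_cases j <;> simp [Matrix.mul_apply, Fin.sum_univ_two])
  induction k using Int.induction_on with
  | zero =>
    have : (!![1, 0; 0, 1] : Matrix (Fin 2) (Fin 2) ℤ) = 1 := by
      ext i j; fin_cases i <;> fin_cases j <;> simp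
    rw [this]
    exact C.R_one
  | succ k ih =>
    have : (!![1, 0; (k : ℤ) + 1, 1] : Matrix (Fin 2) (Fin 2) ℤ)
        = !![1, 0; (k : ℤ), 1] * !![1, 0; 1, 1] := by
      ext i j; fin_cases i <;> fin_cases j <;>
        simp [Matrix.mul_apply, Fin.sum_univ_two, add_comm]
    rw [this]
    exact C.R_mul ih h1
  | pred k ih =>
    have : (!![1, 0; -(k : ℤ) - 1, 1] : Matrix (Fin 2) (Fin 2) ℤ)
        = !![1, 0; -(k : ℤ), 1] * !![1, 0; -1, 1] := by
      ext i j; fin_cases i <;> fin_cases j <;>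
        simp [Matrix.mul_apply, Fin.sum_univ_two] <;> ring
    rw [this]
    exact C.R_mul ih h2

lemma R_W (k l : ℤ) : C.R !![k * (1 - k * l) + k, -(1 - k * l); 1 - k * l, l] := by
  have : (!![k * (1 - k * l) + k, -(1 - k * l); 1 - k * l, l] : Matrix (Fin 2) (Fin 2) ℤ)
      = !![1, k; 0, 1] * !![1, 0; -l, 1] * !![1, k; 0, 1]
        * (!![1, -1; 0, 1] * !![1, 0; 1, 1] * !![1, -1; 0, 1]) := by
    ext i j; fin_cases i <;> fin_cases j <;>
      simp [Matrix.mul_apply, Fin.sum_univ_two] <;> ring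
  rw [this]
  exact C.R_mul (C.R_mul (C.R_mul (C.R_U k) (C.R_L (-l))) (C.R_U k))
    (C.R_mul (C.R_mul (C.R_U (-1)) (C.R_L 1)) (C.R_U (-1)))

/-- the coordinates over the ring `S` -/
def X (S : Type) [CommRing S] : G →* Multiplicative ((Fin 2 → S) × (J → S)) where
  toFun g := Multiplicative.ofAdd (fun i => (C.x g i : S), fun j => (C.y g j : S))
  map_one' := by
    have h1 : C.x 1 = 0 := by
      have := C.x_mul 1 1
      rw [mul_one] at this
      exact left_eq_add.1 this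
    have h2 : C.y 1 = 0 := by
      have := C.y_mul 1 1
      rw [mul_one] at this
      exact left_eq_add.1 this
    rw [h1, h2]
    simp
    exact ⟨rfl, rfl⟩
  map_mul' g h := by
    rw [C.x_mul, C.y_mul, ← ofAdd_add]
    congr 1
    refine Prod.ext ?_ ?_
    · funext i
      simp
    · funext i
      simp

variable {S : Type} [CommRing S]

/-- the diagonal matrix `(u, u⁻¹, 1, …, 1)` -/
def D (u : Sˣ) (a : Multiplicative ((Fin 2 → S) × (J → S))) :
    Multiplicative ((Fin 2 → S) × (J → S)) :=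
  Multiplicative.ofAdd
    (![(u : S) * (Multiplicative.toAdd a).1 0, ((u⁻¹ : Sˣ) : S) * (Multiplicative.toAdd a).1 1],
      (Multiplicative.toAdd a).2)

lemma D_one (a : Multiplicative ((Fin 2 → S) × (J → S))) : D (1 : Sˣ) a = a := by
  obtain ⟨a, b⟩ := a
  refine congrArg Multiplicative.ofAdd (Prod.ext ?_ rfl)
  funext i
  fin_cases i
  · simp; rfl
  · simp; rfl

lemma D_mul (u v : Sˣ) (a : Multiplicative ((Fin 2 → S) × (J → S))) :
    D (u * v) a = D u (D v a) := by
  refine congrArg Multiplicative.ofAdd (Prod.ext ?_ rfl)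
  funext i
  fin_cases i
  · simp [D, mul_assoc]
  · simp [D, mul_left_comm, mul_assoc]

lemma real (hS : Function.Surjective (Int.cast : ℤ → S)) (u : Sˣ) :
    ∃ ψ : MulAut G, ∀ g, C.X S (ψ g) = D u (C.X S g) := by
  obtain ⟨k, hk⟩ := hS u
  obtain ⟨l, hl⟩ := hS ((u⁻¹ : Sˣ) : S)
  obtain ⟨ψ, hψ⟩ := C.R_W k l
  refine ⟨ψ, fun g => congrArg Multiplicative.ofAdd (Prod.ext ?_ ?_)⟩
  · funext i
    show ((C.x (ψ g) i : ℤ) : S) = _
    rw [(hψ g).1]
    fin_cases i
    · simp [Matrix.mulVec, dotProduct, Fin.sum_univ_two, hk, hl, X]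
    · simp [Matrix.mulVec, dotProduct, Fin.sum_univ_two, hk, hl, X]
  · funext j
    show ((C.y (ψ g) j : ℤ) : S) = _
    rw [(hψ g).2]
    rfl

lemma sep (u v : Sˣ) (h : ∀ g, D u (C.X S g) = D v (C.X S g)) : u = v := by
  have h1 := congrArg (fun a => (Multiplicative.toAdd a).1 0) (h C.e)
  simp [D, X, C.x_e] at h1
  exact Units.ext h1

include C in
/-- **many congruence subgroups** -/
theorem count [Finite J] [Finite S] {P : Type} [Group P]
    (hS : Function.Surjective (Int.cast : ℤ → S)) (j : P →* Sˣ) (hj : Function.Injective j) :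
    (Set.univ : Set (Subgroup P)).encard ≤ cong G ((Nat.card S ^ (2 + Nat.card J)) ^ c) := by
  have h := CG.count C.gen_top (C.X S) (fun v : P => D (j v))
    (fun a => by rw [map_one]; exact D_one a) (fun v v' a => by rw [map_mul]; exact D_mul _ _ a)
    (fun v => C.real hS (j v)) (fun v v' h => hj (C.sep _ _ h))
  have h2 : Nat.card (Multiplicative ((Fin 2 → S) × (J → S))) = Nat.card S ^ (2 + Nat.card J) := by
    rw [Nat.card_congr Multiplicative.toAdd, Nat.card_prod, Nat.card_fun, Nat.card_fun, pow_add]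
    simp
  rw [h2] at h
  exact h

end Coord

end Pool.Agent.Q98.CG
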