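import Pool.Agent.Q98.CG.Aut

/-!
# Many congruence subgroups: the abstract part
-/

set_option autoImplicit false

namespace Pool.Agent.Q98.CG

variable {G A P : Type} [Group G] [CommGroup A] [Group P]

/-- the automorphisms which fix `X` -/
def St (X : G →* A) : Subgroup (MulAut G) where
  carrier := {ψ | ∀ g, X (ψ g) = X g}
  one_mem' := fun _ => rfl
  mul_mem' := by
    intro a b ha hb g
    rw [MulAut.mul_apply, ha, hb]
  inv_mem' := by
    intro a ha g
    have := ha (a⁻¹ g)
    rw [MulAut.apply_inv_self] at this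
    exact this.symm

lemma hom_eq {c : ℕ} {gen : Fin c → G} (hgen : Subgroup.closure (Set.range gen) = ⊤)
    {f f' : G →* A} (h : ∀ k, f (gen k) = f' (gen k)) : f = f' := by
  refine MonoidHom.eq_of_eqOn_dense hgen ?_
  rintro _ ⟨k, rfl⟩
  exact h k

lemma finite_hom [Finite A] {c : ℕ} {gen : Fin c → G}
    (hgen : Subgroup.closure (Set.range gen) = ⊤) : Finite (G →* A) := by
  refine Finite.of_injective (fun f : G →* A => fun k : Fin c => f (gen k)) ?_
  intro f f' h
  exact hom_eq hgen fun k => congrFun h k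

lemma index_St [Finite A] {c : ℕ} {gen : Fin c → G}
    (hgen : Subgroup.closure (Set.range gen) = ⊤) (X : G →* A) :
    (St X).index ≠ 0 ∧ (St X).index ≤ Nat.card A ^ c := by
  let F : MulAut G ⧸ St X → (Fin c → A) := fun q => fun k => X ((q.out)⁻¹ (gen k))
  have hF : Function.Injective F := by
    intro q q' h
    have h1 : X.comp ((q.out)⁻¹ : MulAut G).toMonoidHom
        = X.comp ((q'.out)⁻¹ : MulAut G).toMonoidHom := hom_eq hgen fun k => congrFun h k
    have h2 : (q.out)⁻¹ * q'.out ∈ St X := by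
      intro g
      have h3 := DFunLike.congr_fun h1 (q'.out g)
      change X ((q.out)⁻¹ (q'.out g)) = X ((q'.out)⁻¹ (q'.out g)) at h3
      rw [MulAut.mul_apply, h3, MulAut.inv_apply_self]
    rw [← QuotientGroup.eq, QuotientGroup.out_eq', QuotientGroup.out_eq'] at h2
    exact h2
  have hfin : Finite (MulAut G ⧸ St X) := Finite.of_injective F hF
  haveI : (St X).FiniteIndex := Subgroup.finiteIndex_of_finite_quotient
  refine ⟨Subgroup.FiniteIndex.index_ne_zero, ?_⟩
  have h3 := Nat.card_le_card_of_injective F hF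
  rw [Nat.card_fun, Nat.card_eq_fintype_card (α := Fin c), Fintype.card_fin] at h3
  exact h3

lemma cong_St [Finite A] {c : ℕ} {gen : Fin c → G}
    (hgen : Subgroup.closure (Set.range gen) = ⊤) (X : G →* A) : IsCong G (St X) := by
  haveI := finite_hom (A := A) hgen
  refine ⟨⨅ f : G →* A, f.ker, ?_, ?_, ?_⟩
  · rw [Subgroup.characteristic_iff_le_comap]
    intro φ g hg
    rw [Subgroup.mem_comap, Subgroup.mem_iInf]
    intro f
    rw [Subgroup.mem_iInf] at hg
    exact hg (f.comp φ.toMonoidHom)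
  · haveI : ∀ f : G →* A, f.ker.FiniteIndex := fun f => by
      haveI : Finite f.range := inferInstance
      exact Subgroup.finiteIndex_ker f
    exact Subgroup.finiteIndex_iInf fun f => inferInstance
  · rintro ψ ⟨g, hg⟩ y
    have h := (Subgroup.mem_iInf.1 (hg y)) X
    rw [MonoidHom.mem_ker, map_mul, map_inv, map_mul, map_mul, map_inv, mul_inv_eq_one] at h
    rw [h, mul_comm (X g), mul_assoc, mul_inv_cancel, mul_one]

lemma inn_St (X : G →* A) : Inn G ≤ St X := by
  rintro _ ⟨g, rfl⟩ y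
  rw [MulAut.conj_apply, map_mul, map_mul, map_inv, mul_comm (X g), mul_assoc, mul_inv_cancel,
    mul_one]

/-- the automorphisms which act on `X` through an element of `V` -/
def HV (X : G →* A) (D : P → A → A) (hD1 : ∀ a, D 1 a = a)
    (hDm : ∀ v v' a, D (v * v') a = D v (D v' a)) (V : Subgroup P) : Subgroup (MulAut G) where
  carrier := {ψ | ∃ v ∈ V, ∀ g, X (ψ g) = D v (X g)}
  one_mem' := ⟨1, V.one_mem, fun g => (hD1 _).symm⟩
  mul_mem' := by
    rintro a b ⟨v, hv, ha⟩ ⟨w, hw, hb⟩
    refine ⟨v * w, V.mul_mem hv hw, fun g => ?_⟩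
    rw [MulAut.mul_apply, ha, hb, hDm]
  inv_mem' := by
    rintro a ⟨v, hv, ha⟩
    refine ⟨v⁻¹, V.inv_mem hv, fun g => ?_⟩
    have := ha (a⁻¹ g)
    rw [MulAut.apply_inv_self] at this
    rw [this, ← hDm, inv_mul_cancel, hD1]

/-- **many congruence subgroups** -/
theorem count [Finite A] {c : ℕ} {gen : Fin c → G}
    (hgen : Subgroup.closure (Set.range gen) = ⊤) (X : G →* A)
    (D : P → A → A) (hD1 : ∀ a, D 1 a = a)
    (hDm : ∀ v v' a, D (v * v') a = D v (D v' a))
    (hreal : ∀ v : P, ∃ ψ : MulAut G, ∀ g, X (ψ g) = D v (X g))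
    (hsep : ∀ v v' : P, (∀ g, D v (X g) = D v' (X g)) → v = v') :
    (Set.univ : Set (Subgroup P)).encard ≤ cong G (Nat.card A ^ c) := by
  refine Set.encard_le_encard_of_injOn (f := HV X D hD1 hDm) ?_ ?_
  · intro V _
    have hle : St X ≤ HV X D hD1 hDm V := by
      intro ψ hψ
      exact ⟨1, V.one_mem, fun g => by rw [hD1]; exact hψ g⟩
    obtain ⟨h1, h2⟩ := index_St hgen X
    have h3 := Subgroup.index_dvd_of_le hle
    refine ⟨(inn_St X).trans hle, (cong_St hgen X).mono hle, ?_, ?_⟩
    · intro h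
      rw [h, zero_dvd_iff] at h3
      exact h1 h3
    · exact (Nat.le_of_dvd (Nat.pos_of_ne_zero h1) h3).trans h2
  · have key : ∀ V V' : Subgroup P, HV X D hD1 hDm V = HV X D hD1 hDm V' → V ≤ V' := by
      intro V V' h v hv
      obtain ⟨ψ, hψ⟩ := hreal v
      have h1 : ψ ∈ HV X D hD1 hDm V := ⟨v, hv, hψ⟩
      rw [h] at h1
      obtain ⟨w, hw, h2⟩ := h1
      have : v = w := hsep v w fun g => by rw [← hψ, ← h2]
      rw [this]
      exact hw
    intro V _ V' _ h
    exact le_antisymm (key V V' h) (key V' V h.symm)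

end Pool.Agent.Q98.CG
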