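import Pool.Agent.Q98.CG.Free

/-!
# Coordinates on surface groups
-/

set_option autoImplicit false

namespace Pool.Agent.Q98.CG

open Matrix

/-- the relator -/
abbrev rel (g : ℕ) : FreeGroup (Fin g ⊕ Fin g) :=
  (List.ofFn (fun i : Fin g =>
      FreeGroup.of (Sum.inl i : Fin g ⊕ Fin g) *
      FreeGroup.of (Sum.inr i : Fin g ⊕ Fin g) *
      (FreeGroup.of (Sum.inl i : Fin g ⊕ Fin g))⁻¹ *
      (FreeGroup.of (Sum.inr i : Fin g ⊕ Fin g))⁻¹)).prod

/-- the surface group -/
abbrev Surf (g : ℕ) : Type := PresentedGroup ({rel g} : Set (FreeGroup (Fin g ⊕ Fin g)))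

variable {g : ℕ}

lemma lift_rel {H : Type} [Group H] (f : Fin g ⊕ Fin g → H) :
    FreeGroup.lift f (rel g) = (List.ofFn (fun i : Fin g =>
      f (Sum.inl i) * f (Sum.inr i) * (f (Sum.inl i))⁻¹ * (f (Sum.inr i))⁻¹)).prod := by
  rw [rel, map_list_prod, List.map_ofFn]
  congr 2
  funext i
  simp

lemma rel_one : (List.ofFn (fun i : Fin g =>
      (PresentedGroup.of (Sum.inl i) : Surf g) * PresentedGroup.of (Sum.inr i) *
        (PresentedGroup.of (Sum.inl i))⁻¹ * (PresentedGroup.of (Sum.inr i))⁻¹)).prod = 1 := by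
  have h1 : PresentedGroup.mk ({rel g} : Set (FreeGroup (Fin g ⊕ Fin g))) (rel g) = 1 :=
    PresentedGroup.one_of_mem (Set.mem_singleton _)
  rw [rel, map_list_prod, List.map_ofFn] at h1
  rw [← h1]
  congr 2

/-- homomorphisms from the surface group -/
def homS {H : Type} [Group H] (f : Fin g ⊕ Fin g → H) (hf : (List.ofFn (fun i : Fin g =>
      f (Sum.inl i) * f (Sum.inr i) * (f (Sum.inl i))⁻¹ * (f (Sum.inr i))⁻¹)).prod = 1) :
    Surf g →* H :=
  PresentedGroup.toGroup (f := f) (rels := {rel g}) (by
    intro r hr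
    rw [Set.mem_singleton_iff.1 hr, lift_rel]
    exact hf)

lemma homS_of {H : Type} [Group H] (f : Fin g ⊕ Fin g → H) (hf) (i : Fin g ⊕ Fin g) :
    homS f hf (PresentedGroup.of i) = f i := PresentedGroup.toGroup.of _

lemma comm_rel {H : Type} [CommGroup H] (a b : H) : a * b * a⁻¹ * b⁻¹ = 1 := by
  rw [mul_comm a b, mul_inv_cancel_right, mul_inv_cancel]

section
variable (m : ℕ)

/-- the coordinates of the first two generators -/
def XS : Surf (m + 1) →* Multiplicative (Fin 2 → ℤ) :=
  homS (Sum.elim (fun i => if i = 0 then Multiplicative.ofAdd ![1, 0] else 1)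
    (fun i => if i = 0 then Multiplicative.ofAdd ![0, 1] else 1)) (by
      rw [List.prod_eq_one]
      intro x hx
      rw [List.mem_ofFn] at hx
      obtain ⟨i, rfl⟩ := hx
      exact comm_rel _ _)

/-- `a_0 ↦ a_0 b_0 ^ k` -/
def trL (k : ℤ) : Surf (m + 1) →* Surf (m + 1) :=
  homS (fun i => if i = Sum.inl 0 then PresentedGroup.of (Sum.inl 0) *
      PresentedGroup.of (Sum.inr 0) ^ k else PresentedGroup.of i) (by
    rw [← rel_one (g := m + 1)]
    congr 2
    funext i
    by_cases hi : i = 0
    · subst hi
      simp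
      group
    · simp [hi])

/-- `b_0 ↦ b_0 a_0 ^ k` -/
def trR (k : ℤ) : Surf (m + 1) →* Surf (m + 1) :=
  homS (fun i => if i = Sum.inr 0 then PresentedGroup.of (Sum.inr 0) *
      PresentedGroup.of (Sum.inl 0) ^ k else PresentedGroup.of i) (by
    rw [← rel_one (g := m + 1)]
    congr 2
    funext i
    by_cases hi : i = 0
    · subst hi
      simp
      group
    · simp [hi])

lemma trL_comp (k l : ℤ) (hkl : k + l = 0) : (trL m k).comp (trL m l) = MonoidHom.id _ := by
  refine PresentedGroup.ext fun i => ?_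
  show trL m k (trL m l (PresentedGroup.of i)) = PresentedGroup.of i
  by_cases hi : i = Sum.inl 0
  · subst hi
    rw [trL, trL, homS_of, if_pos rfl, map_mul, map_zpow, homS_of, homS_of, if_pos rfl,
      if_neg (by simp), mul_assoc, ← _root_.zpow_add, hkl, zpow_zero, mul_one]
  · rw [trL, trL, homS_of, if_neg hi, homS_of, if_neg hi]

lemma trR_comp (k l : ℤ) (hkl : k + l = 0) : (trR m k).comp (trR m l) = MonoidHom.id _ := by
  refine PresentedGroup.ext fun i => ?_
  show trR m k (trR m l (PresentedGroup.of i)) = PresentedGroup.of i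
  by_cases hi : i = Sum.inr 0
  · subst hi
    rw [trR, trR, homS_of, if_pos rfl, map_mul, map_zpow, homS_of, homS_of, if_pos rfl,
      if_neg (by simp), mul_assoc, ← _root_.zpow_add, hkl, zpow_zero, mul_one]
  · rw [trR, trR, homS_of, if_neg hi, homS_of, if_neg hi]

/-- the transvections -/
def trLA : MulAut (Surf (m + 1)) :=
  MonoidHom.toMulEquiv (trL m 1) (trL m (-1)) (trL_comp m _ _ (by norm_num))
    (trL_comp m _ _ (by norm_num))

/-- the transvections -/
def trRA : MulAut (Surf (m + 1)) :=
  MonoidHom.toMulEquiv (trR m 1) (trR m (-1)) (trR_comp m _ _ (by norm_num))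
    (trR_comp m _ _ (by norm_num))

lemma gen_top_surf : Subgroup.closure (Set.range fun i : Fin ((m + 1) + (m + 1)) =>
    (PresentedGroup.of (finSumFinEquiv.symm i) : Surf (m + 1))) = ⊤ := by
  have h := PresentedGroup.closure_range_of ({rel (m + 1)} :
    Set (FreeGroup (Fin (m + 1) ⊕ Fin (m + 1))))
  rw [← h]
  congr 1
  exact finSumFinEquiv.symm.surjective.range_comp
    (fun i => (PresentedGroup.of i : Surf (m + 1)))

/-- coordinates on the surface group -/
def coordSurf : Coord (Surf (m + 1)) Empty ((m + 1) + (m + 1)) :=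
  mkCoord (XS m) (fun i => PresentedGroup.of (finSumFinEquiv.symm i)) (gen_top_surf m)
    (PresentedGroup.of (Sum.inl 0))
    (by rw [XS, homS_of]; simp)
    ⟨trRA m, by
      refine PresentedGroup.ext fun i => ?_
      show XS m (trR m 1 (PresentedGroup.of i)) = mv _ (XS m (PresentedGroup.of i))
      rw [trR, homS_of]
      rcases i with i | i
      · rw [if_neg (by simp), XS, homS_of]
        by_cases hi : i = 0
        · simp only [Sum.elim_inl, if_pos hi]
          rw [mv_apply]
          congr 1
          ext j; fin_cases j <;> simp [Matrix.mulVec, dotProduct, Fin.sum_univ_two]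
        · simp [hi]
      · by_cases hi : i = 0
        · rw [hi, if_pos rfl, map_mul, map_zpow, XS, homS_of, homS_of, zpow_one]
          simp only [Sum.elim_inl, Sum.elim_inr, if_true]
          rw [mv_apply, ← ofAdd_add]
          congr 1
          ext j; fin_cases j <;> simp [Matrix.mulVec, dotProduct, Fin.sum_univ_two]
        · rw [if_neg (by simpa using hi), XS, homS_of]
          simp [hi]⟩
    ⟨trLA m, by
      refine PresentedGroup.ext fun i => ?_
      show XS m (trL m 1 (PresentedGroup.of i)) = mv _ (XS m (PresentedGroup.of i))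
      rw [trL, homS_of]
      rcases i with i | i
      · by_cases hi : i = 0
        · rw [hi, if_pos rfl, map_mul, map_zpow, XS, homS_of, homS_of, zpow_one]
          simp only [Sum.elim_inl, Sum.elim_inr, if_true]
          rw [mv_apply, ← ofAdd_add]
          congr 1
          ext j; fin_cases j <;> simp [Matrix.mulVec, dotProduct, Fin.sum_univ_two]
        · rw [if_neg (by simpa using hi), XS, homS_of]
          simp [hi]
      · rw [if_neg (by simp), XS, homS_of]
        by_cases hi : i = 0
        · simp only [Sum.elim_inr, if_pos hi]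
          rw [mv_apply]
          congr 1
          ext j; fin_cases j <;> simp [Matrix.mulVec, dotProduct, Fin.sum_univ_two]
        · simp [hi]⟩

end

end Pool.Agent.Q98.CG
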